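import Mathlib

/-!
# Products of shifted Liouville values take both signs in all short intervals

For a finite set `A` of shifts let `F A n = ∏ a ∈ A, λ (n + a)`. The values `F A n` are read
additively: `om n = Ω n mod 2`, and polynomials over `ZMod 2` act on functions `ℕ → ZMod 2` by
the shift.
-/

namespace Pool.Agent.Results.MP_e6fa8b_nt.BothSignsShort

open Finset Polynomial

/-- `F A n = ∏_{a ∈ A} λ(n + a)`, with `λ(n) = (-1) ^ Ω(n)` the Liouville function. -/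
def F (A : Finset ℕ) (n : ℕ) : ℤ :=
  ∏ a ∈ A, (-1 : ℤ) ^ (ArithmeticFunction.cardFactors (n + a))

/-- The parity of `Ω`. -/
def om (n : ℕ) : ZMod 2 := (ArithmeticFunction.cardFactors n : ZMod 2)

lemma om_mul {m n : ℕ} (hm : m ≠ 0) (hn : n ≠ 0) : om (m * n) = om m + om n := by
  unfold om
  rw [ArithmeticFunction.cardFactors_mul hm hn]; push_cast; rfl

/-- The shift on functions `ℕ → ZMod 2`. -/
def sh : Module.End (ZMod 2) (ℕ → ZMod 2) where
  toFun f := fun n => f (n + 1)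
  map_add' _ _ := rfl
  map_smul' _ _ := rfl

lemma sh_pow (i : ℕ) (f : ℕ → ZMod 2) (n : ℕ) : (sh ^ i) f n = f (n + i) := by
  induction i generalizing n with
  | zero => simp
  | succ i ih =>
    rw [pow_succ', Module.End.mul_apply]
    change (sh ^ i) f (n + 1) = _
    rw [ih]; congr 1; ring

lemma aeval_apply (R : (ZMod 2)[X]) (f : ℕ → ZMod 2) (n : ℕ) :
    (aeval sh R) f n = ∑ i ∈ R.support, R.coeff i * f (n + i) := by
  rw [aeval_eq_sum_range' (Nat.lt_succ_self _), LinearMap.sum_apply, Finset.sum_apply]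
  rw [← Finset.sum_subset (s₁ := R.support) (s₂ := Finset.range R.natDegree.succ)]
  · refine Finset.sum_congr rfl fun i _ => ?_
    rw [LinearMap.smul_apply, Pi.smul_apply, sh_pow, smul_eq_mul]
  · exact supp_subset_range_natDegree_succ
  · intro i _ hi
    rw [notMem_support_iff.mp hi, zero_smul]; rfl

/-- The polynomial of a set of shifts. -/
noncomputable def pol (A : Finset ℕ) : (ZMod 2)[X] := ∑ a ∈ A, X ^ a

lemma pol_coeff (A : Finset ℕ) (i : ℕ) : (pol A).coeff i = if i ∈ A then 1 else 0 := by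
  unfold pol
  rw [finsetSum_coeff]
  simp [coeff_X_pow]

lemma pol_ne_zero {A : Finset ℕ} (hA : A.Nonempty) : pol A ≠ 0 := by
  obtain ⟨a, ha⟩ := hA
  intro h
  have := pol_coeff A a
  rw [h, if_pos ha] at this
  simp at this

/-- Additive form of `F`. -/
noncomputable def G (A : Finset ℕ) : ℕ → ZMod 2 := (aeval sh (pol A)) om

lemma G_apply (A : Finset ℕ) (n : ℕ) : G A n = ∑ a ∈ A, om (n + a) := by
  unfold G pol
  rw [map_sum, LinearMap.sum_apply, Finset.sum_apply]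
  refine Finset.sum_congr rfl fun a _ => ?_
  rw [map_pow, aeval_X, sh_pow]

lemma zmod2 : ∀ z : ZMod 2, z = 0 ∨ z = 1 := by decide

lemma F_eq (A : Finset ℕ) (n : ℕ) :
    F A n = (-1 : ℤ) ^ (∑ a ∈ A, ArithmeticFunction.cardFactors (n + a)) := by
  unfold F
  rw [prod_pow_eq_pow_sum]

lemma G_eq_cast (A : Finset ℕ) (n : ℕ) :
    G A n = ((∑ a ∈ A, ArithmeticFunction.cardFactors (n + a) : ℕ) : ZMod 2) := by
  rw [G_apply]; unfold om; push_cast; rfl

lemma F_eq_one_iff (A : Finset ℕ) (n : ℕ) : F A n = 1 ↔ G A n = 0 := by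
  rw [F_eq, G_eq_cast, ZMod.natCast_eq_zero_iff_even]
  constructor
  · intro h
    by_contra hne
    rw [Nat.not_even_iff_odd] at hne
    rw [hne.neg_one_pow] at h
    norm_num at h
  · intro h; exact h.neg_one_pow

lemma F_eq_neg_one_iff (A : Finset ℕ) (n : ℕ) : F A n = -1 ↔ G A n = 1 := by
  have h1 := F_eq_one_iff A n
  have h2 : F A n = 1 ∨ F A n = -1 := by
    rw [F_eq]; exact neg_one_pow_eq_or ℤ _
  have h3 := zmod2 (G A n)
  constructor
  · intro h
    rcases h3 with h3 | h3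
    · rw [h1.mpr h3] at h; norm_num at h
    · exact h3
  · intro h
    rcases h2 with h2 | h2
    · rw [h1.mp h2] at h; exact absurd h (by decide)
    · exact h2

lemma two_ne : ∀ v a b : ZMod 2, a ≠ v → b ≠ v → a = b := by decide

/-- A nonzero polynomial over `ZMod 2` divides `X ^ (2e) - X ^ e` for some `e ≥ 1`. -/
lemma exists_dvd {S : (ZMod 2)[X]} (hS : S ≠ 0) :
    ∃ e : ℕ, 1 ≤ e ∧ S ∣ X ^ (2 * e) - X ^ e := by
  have : Module.Finite (ZMod 2) (AdjoinRoot S) := (AdjoinRoot.powerBasis hS).finite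
  have : Finite (AdjoinRoot S) := Module.finite_of_finite (ZMod 2)
  obtain ⟨i, j, hij, h⟩ := Finite.exists_ne_map_eq_of_infinite
    (fun i : ℕ => (AdjoinRoot.root S) ^ i)
  wlog hlt : i < j generalizing i j
  · exact this j i hij.symm h.symm (by omega)
  replace h : (AdjoinRoot.root S) ^ i = (AdjoinRoot.root S) ^ j := h
  obtain ⟨T, rfl⟩ : ∃ T, j = i + T := ⟨j - i, by omega⟩
  have hT : 1 ≤ T := by omega
  have step : ∀ c k : ℕ, i ≤ k →
      (AdjoinRoot.root S) ^ (k + c * T) = (AdjoinRoot.root S) ^ k := by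
    intro c
    induction c with
    | zero => intro k _; simp
    | succ c ih =>
      intro k hk
      obtain ⟨l, rfl⟩ : ∃ l, k = i + l := ⟨k - i, by omega⟩
      have : i + l + (c + 1) * T = (i + T) + l + c * T := by ring
      rw [this, ih _ (by omega), pow_add _ (i + T) l, ← h, ← pow_add]
  refine ⟨(i + 1) * T, Nat.mul_pos (by omega) hT, ?_⟩
  have hi : i ≤ (i + 1) * T := by nlinarith
  have h2 := step (i + 1) ((i + 1) * T) hi
  rw [← AdjoinRoot.mk_eq_zero, map_sub, map_pow, map_pow, AdjoinRoot.mk_X, sub_eq_zero]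
  rw [← h2]; congr 1; ring

/-- Windows: where `om` differs at `n + e` and `n + 2 e`, `G B` takes both values close to `n`. -/
lemma window {B : Finset ℕ} (hB : B.Nonempty) :
    ∃ e K : ℕ, 1 ≤ e ∧ ∀ n : ℕ, om (n + e) ≠ om (n + 2 * e) → ∀ v : ZMod 2,
      ∃ q, 1 ≤ q ∧ q ≤ K ∧ G B (n + q) = v := by
  have hS : (X : (ZMod 2)[X]) * (X - 1) * pol B ≠ 0 := by
    refine mul_ne_zero (mul_ne_zero X_ne_zero ?_) (pol_ne_zero hB)
    have := X_sub_C_ne_zero (1 : ZMod 2)
    rwa [C_1] at this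
  obtain ⟨e, he, Q, hQ⟩ := exists_dvd hS
  refine ⟨e, Q.natDegree + 2, he, ?_⟩
  intro n hn v
  have key : (aeval sh (X ^ (2 * e) - X ^ e : (ZMod 2)[X])) om n = om (n + 2 * e) - om (n + e) := by
    rw [map_sub, map_pow, map_pow, aeval_X, LinearMap.sub_apply, Pi.sub_apply, sh_pow, sh_pow]
  have key2 : (aeval sh (X ^ (2 * e) - X ^ e : (ZMod 2)[X])) om n =
      ∑ i ∈ Q.support, Q.coeff i * (G B (n + i + 2) - G B (n + i + 1)) := by
    have : (X ^ (2 * e) - X ^ e : (ZMod 2)[X]) = Q * ((X * (X - 1)) * pol B) := by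
      rw [hQ]; ring
    rw [this, map_mul, Module.End.mul_apply, aeval_apply]
    refine Finset.sum_congr rfl fun i _ => ?_
    congr 1
    rw [map_mul, Module.End.mul_apply]
    change (aeval sh (X * (X - 1) : (ZMod 2)[X])) (G B) (n + i) = _
    have hx : (X * (X - 1) : (ZMod 2)[X]) = X ^ 2 - X ^ 1 := by ring
    rw [hx, map_sub, map_pow, map_pow, aeval_X, LinearMap.sub_apply, Pi.sub_apply, sh_pow, sh_pow]
  by_contra hcon
  push Not at hcon
  apply hn
  have hz : ∀ i ∈ Q.support, Q.coeff i * (G B (n + i + 2) - G B (n + i + 1)) = 0 := by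
    intro i hi
    have hi' : i ≤ Q.natDegree := le_natDegree_of_mem_supp i hi
    have h1 := hcon (i + 2) (by omega) (by omega)
    have h2 := hcon (i + 1) (by omega) (by omega)
    have h1' : G B (n + i + 2) ≠ v := by rw [add_assoc]; exact h1
    have h2' : G B (n + i + 1) ≠ v := by rw [add_assoc]; exact h2
    have : G B (n + i + 2) = G B (n + i + 1) := two_ne _ _ _ h1' h2'
    rw [this, sub_self, mul_zero]
  rw [key, Finset.sum_eq_zero hz] at key2
  exact (sub_eq_zero.mp key2).symm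

lemma om_sq {a : ℕ} (ha : a ≠ 0) : om (a ^ 2) = 0 := by
  rw [pow_two, om_mul ha ha]; exact CharTwo.add_self_eq_zero _

lemma om_two_sq {a : ℕ} (ha : a ≠ 0) : om (2 * a ^ 2) = 1 := by
  rw [om_mul (by norm_num) (pow_ne_zero 2 ha), om_sq ha, add_zero]
  unfold om
  rw [ArithmeticFunction.cardFactors_apply_prime Nat.prime_two]; rfl

/-- A change of `om` between two multiples of `e` gives one between two consecutive ones. -/
lemma step_change {e a b : ℕ} (hab : a ≤ b) (h : om (e * a) ≠ om (e * b)) :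
    ∃ k, a ≤ k ∧ k < b ∧ om (e * k) ≠ om (e * (k + 1)) := by
  by_contra hcon
  push Not at hcon
  apply h
  obtain ⟨d, rfl⟩ : ∃ d, b = a + d := ⟨b - a, by omega⟩
  have : ∀ t, t ≤ d → om (e * (a + t)) = om (e * a) := by
    intro t
    induction t with
    | zero => intro _; rfl
    | succ t ih =>
      intro ht
      rw [← add_assoc, ← hcon (a + t) (by omega) (by omega)]
      exact ih (by omega)
  exact (this d le_rfl).symm

/-- A square of a multiple of `e` shortly after `z`. -/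
lemma exists_sq (e z : ℕ) (he : 1 ≤ e) : ∃ u : ℕ, 1 ≤ u ∧ z ≤ (e * u) ^ 2 ∧
    (e * u) ^ 2 ≤ z + 4 * e ^ 2 * (Nat.sqrt z + 1) := by
  refine ⟨Nat.sqrt z / e + 1, Nat.le_add_left 1 _, ?_, ?_⟩
  · have h1 : Nat.sqrt z < e * (Nat.sqrt z / e + 1) := Nat.lt_mul_div_succ _ he
    have h2 : z < (Nat.sqrt z + 1) ^ 2 := Nat.lt_succ_sqrt' z
    exact h2.le.trans (Nat.pow_le_pow_left h1 2)
  · have h1 : e * (Nat.sqrt z / e + 1) ≤ Nat.sqrt z + e := by
      have := Nat.mul_div_le (Nat.sqrt z) e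
      rw [Nat.mul_add]; omega
    have h2 : Nat.sqrt z ^ 2 ≤ z := Nat.sqrt_le' z
    calc (e * (Nat.sqrt z / e + 1)) ^ 2 ≤ (Nat.sqrt z + e) ^ 2 := Nat.pow_le_pow_left h1 2
      _ ≤ z + 4 * e ^ 2 * (Nat.sqrt z + 1) := by
        have h3 : Nat.sqrt z * e ≤ Nat.sqrt z * e ^ 2 :=
          Nat.mul_le_mul_left _ (by nlinarith)
        nlinarith

lemma sqrt_add_le (y e : ℕ) : Nat.sqrt (y + e) ≤ Nat.sqrt y + e := by
  have h2 : y < (Nat.sqrt y + 1) ^ 2 := Nat.lt_succ_sqrt' y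
  rw [← Nat.lt_succ_iff, Nat.sqrt_lt']
  have h3 : e ≤ (Nat.sqrt y + 1) * e := Nat.le_mul_of_pos_left _ (Nat.succ_pos _)
  have h4 : (Nat.sqrt y + e).succ ^ 2 = (Nat.sqrt y + 1) ^ 2 + 2 * ((Nat.sqrt y + 1) * e) + e ^ 2 := by
    rw [Nat.succ_eq_add_one]; ring
  rw [h4]
  have h5 : 0 ≤ e ^ 2 := Nat.zero_le _
  omega

/-- **Both signs in all short intervals.** For every nonempty finite set `B` of shifts and each
sign `ε` there is `C` such that every interval `[y, y + C √y]`, `y ≥ 1`, contains an integer `n`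
with `∏_{b ∈ B} λ(n + b) = ε`. -/
theorem result (B : Finset ℕ) (hB : B.Nonempty) (ε : ℤ) (hε : ε = 1 ∨ ε = -1) :
    ∃ C : ℕ, ∀ y : ℕ, 1 ≤ y →
      ∃ n : ℕ, y ≤ n ∧ (n : ℝ) ≤ y + C * Real.sqrt y ∧ F B n = ε := by
  obtain ⟨e, K, he, hw⟩ := window hB
  obtain ⟨v, hv⟩ : ∃ v : ZMod 2, ∀ n, G B n = v ↔ F B n = ε := by
    rcases hε with rfl | rfl
    · exact ⟨0, fun n => (F_eq_one_iff B n).symm⟩
    · exact ⟨1, fun n => (F_eq_neg_one_iff B n).symm⟩
  refine ⟨e + (2 + 8 * e ^ 2 * (e + 3)) + K, fun y hy => ?_⟩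
  set z := y + e with hz
  obtain ⟨u, hu, hu1, hu2⟩ := exists_sq e z he
  obtain ⟨w, hw0, hw1, hw2⟩ := exists_sq e (z / 2 + 1) he
  have hsz : Nat.sqrt z ≤ Nat.sqrt y + e := sqrt_add_le y e
  have hsz2 : Nat.sqrt (z / 2 + 1) ≤ Nat.sqrt y + e + 1 := by
    have h1 : Nat.sqrt (z / 2 + 1) ≤ Nat.sqrt (z + 1) := Nat.sqrt_le_sqrt (by omega)
    have h2 := sqrt_add_le z 1
    omega
  set s := Nat.sqrt y with hs
  have hs1 : 1 ≤ s := by rw [hs, Nat.le_sqrt]; omega
  -- both numbers are below a common bound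
  obtain ⟨bd, hbd⟩ : ∃ bd, bd = y + (e + (2 + 8 * e ^ 2 * (e + 3))) * s := ⟨_, rfl⟩
  have hub : (e * u) ^ 2 ≤ bd := by
    have : 4 * e ^ 2 * (Nat.sqrt z + 1) ≤ 4 * e ^ 2 * (s + e + 1) :=
      Nat.mul_le_mul_left _ (by omega)
    have h3 : 4 * e ^ 2 * (s + e + 1) ≤ 8 * e ^ 2 * (e + 3) * s := by
      have : s + e + 1 ≤ 2 * ((e + 3) * s) := by nlinarith
      calc 4 * e ^ 2 * (s + e + 1) ≤ 4 * e ^ 2 * (2 * ((e + 3) * s)) := Nat.mul_le_mul_left _ this
        _ = _ := by ring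
    have h4 : e ≤ e * s := Nat.le_mul_of_pos_right _ hs1
    have h5 : bd = y + (e * s + 2 * s + 8 * e ^ 2 * (e + 3) * s) := by rw [hbd]; ring
    omega
  have hwb : 2 * (e * w) ^ 2 ≤ bd := by
    have : 4 * e ^ 2 * (Nat.sqrt (z / 2 + 1) + 1) ≤ 4 * e ^ 2 * (s + e + 2) :=
      Nat.mul_le_mul_left _ (by omega)
    have h3 : 4 * e ^ 2 * (s + e + 2) ≤ 4 * e ^ 2 * (e + 3) * s := by
      have : s + e + 2 ≤ (e + 3) * s := by nlinarith
      calc 4 * e ^ 2 * (s + e + 2) ≤ 4 * e ^ 2 * ((e + 3) * s) := Nat.mul_le_mul_left _ this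
        _ = _ := by ring
    have h4 : e ≤ e * s := Nat.le_mul_of_pos_right _ hs1
    have h5 : bd = y + (e * s + 2 * s + 2 * (4 * e ^ 2 * (e + 3) * s)) := by rw [hbd]; ring
    omega
  have hwz : z ≤ 2 * (e * w) ^ 2 := by omega
  -- a change between consecutive multiples of e
  have hou : om (e * (e * u ^ 2)) = 0 := by
    have : e * (e * u ^ 2) = (e * u) ^ 2 := by ring
    rw [this]; exact om_sq (by positivity)
  have how : om (e * (2 * e * w ^ 2)) = 1 := by
    have : e * (2 * e * w ^ 2) = 2 * (e * w) ^ 2 := by ring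
    rw [this]; exact om_two_sq (by positivity)
  have hne : om (e * (e * u ^ 2)) ≠ om (e * (2 * e * w ^ 2)) := by
    rw [hou, how]; decide
  obtain ⟨k, hk1, hk2, hk⟩ : ∃ k, z ≤ e * k ∧ e * (k + 1) ≤ bd ∧
      om (e * k) ≠ om (e * (k + 1)) := by
    have e1 : e * (e * u ^ 2) = (e * u) ^ 2 := by ring
    have e2 : e * (2 * e * w ^ 2) = 2 * (e * w) ^ 2 := by ring
    rcases le_total (e * u ^ 2) (2 * e * w ^ 2) with h | h
    · obtain ⟨k, h1, h2, h3⟩ := step_change h hne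
      refine ⟨k, ?_, ?_, h3⟩
      · have := Nat.mul_le_mul_left e h1
        omega
      · have : e * (k + 1) ≤ e * (2 * e * w ^ 2) := Nat.mul_le_mul_left e h2
        omega
    · obtain ⟨k, h1, h2, h3⟩ := step_change h hne.symm
      refine ⟨k, ?_, ?_, h3⟩
      · have := Nat.mul_le_mul_left e h1
        omega
      · have : e * (k + 1) ≤ e * (e * u ^ 2) := Nat.mul_le_mul_left e h2
        omega
  obtain ⟨n, hn⟩ : ∃ n, e * k = n + e := ⟨e * k - e, by omega⟩
  obtain ⟨q, hq1, hq2, hq⟩ := hw n (by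
    have h2 : n + 2 * e = e * (k + 1) := by rw [Nat.mul_add]; omega
    rw [← hn, h2]; exact hk) v
  refine ⟨n + q, by omega, ?_, (hv _).mp hq⟩
  have hfin : n + q ≤ y + (e + (2 + 8 * e ^ 2 * (e + 3)) + K) * s := by
    have h4 : K ≤ K * s := Nat.le_mul_of_pos_right _ hs1
    have h5 : y + (e + (2 + 8 * e ^ 2 * (e + 3)) + K) * s = bd + K * s := by rw [hbd]; ring
    have h6 : e * (k + 1) = e * k + e := by ring
    omega
  have hsr : (s : ℝ) ≤ Real.sqrt y := by
    rw [hs]; exact Real.nat_sqrt_le_real_sqrt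
  calc ((n + q : ℕ) : ℝ) ≤ ((y + (e + (2 + 8 * e ^ 2 * (e + 3)) + K) * s : ℕ) : ℝ) := by
        exact_mod_cast hfin
    _ = (y : ℝ) + ((e + (2 + 8 * e ^ 2 * (e + 3)) + K : ℕ) : ℝ) * s := by push_cast; ring
    _ ≤ _ := by gcongr

end Pool.Agent.Results.MP_e6fa8b_nt.BothSignsShort
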