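import Pool.Agent.Helper8.DW.Dil

/-!
# Liouville in short windows at prime tuples, along the multiples of `d`

`f` is the Liouville function, or any function of `Ω` mod `q` of mean zero, and `n` runs over the `n ≤ X` such that all
`n + a_1, ..., n + a_k` are primes. Then `f` has mean `o(1)` along the multiples of `d` in the windows `(n + y, n + y + H]`, for almost
all `n` and almost all `d ∈ [D, 2 D)`, as soon as `H / D` is large and `D H (H / D) ^ θ ≥ (log X) ^ k`.

The two ends: `D = 1` (the mean of `f` over the windows of length `H ≥ (log X) ^ (k (1 - θ'))` is small; see also `avg` in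
`Pool/Agent/Helper8/DW/Avg.lean`), and `D = H / H₀` (the Liouville function takes both signs on the windows of length
`K (log X) ^ (k / 2)` for all but `ε X / (log X) ^ k` of the `n`; `sign_changes` in `Pool/Agent/Helper8/DW/Sign.lean`).
-/

set_option autoImplicit false

namespace Pool.Agent.Results.MP_e6fa8b_nt.DilatedWindows

open Finset

/-- For distinct `a_1, ..., a_k`, `b` bounded by `1` and periodic mod `q` with sum `0` over a period, and `ε > 0` there are `θ > 0`,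
`H₀` and `X₀` such that for `X ≥ X₀`, `H₀ D ≤ H`, `D H ≤ X`, `y ≤ X` and `(log X) ^ k ≤ D H (H / D) ^ θ` the sum over `n ≤ X` of
`Λ (n + a_1) ... Λ (n + a_k)` times the sum over `D ≤ d < 2 D` of `|∑_{y < h ≤ y + H, d ∣ n + h} b (Ω (n + h))|` is at most
`ε H X`. -/
theorem result (k : ℕ) (a : Fin k → ℕ) (ha : Function.Injective a) (q : ℕ) (hq : 1 ≤ q) (b : ℕ → ℝ)
    (hb : ∀ m, |b m| ≤ 1) (hper : ∀ m, b (m + q) = b m) (hzero : ∑ i ∈ range q, b i = 0) (ε : ℝ)
    (hε : 0 < ε) :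
    ∃ θ : ℝ, 0 < θ ∧ ∃ H₀ X₀ : ℕ, ∀ X : ℕ, X₀ ≤ X → ∀ D H y : ℕ, 1 ≤ D → H₀ * D ≤ H → D * H ≤ X →
      y ≤ X → Real.log X ^ k ≤ D * H * ((H : ℝ) / D) ^ θ →
        ∑ n ∈ Icc 1 X, (∏ i, ArithmeticFunction.vonMangoldt (n + a i)) *
          ∑ d ∈ Ico D (2 * D), |∑ h ∈ (Ioc y (y + H)).filter (fun h => d ∣ n + h),
            b (ArithmeticFunction.cardFactors (n + h))| ≤ ε * H * X := by
  obtain ⟨s, hs, H₀, X₀, h⟩ := Helper8.DW.dil a ha ⟨hq, hb, hper, hzero⟩ ε hε
  have hs0 : (0 : ℝ) < s := by exact_mod_cast hs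
  refine ⟨1 / s, by positivity, H₀, X₀, fun X hX D H y hD hHD hDH hy hlog => h X hX D H y hD hHD hDH hy ?_⟩
  have hD0 : (0 : ℝ) < D := by exact_mod_cast hD
  have h1 : (Real.log X ^ k) ^ s ≤ (D * H * ((H : ℝ) / D) ^ (1 / (s : ℝ))) ^ s :=
    pow_le_pow_left₀ (pow_nonneg (Real.log_natCast_nonneg X) _) hlog s
  rw [← pow_mul, mul_pow, ← Real.rpow_natCast (((H : ℝ) / D) ^ (1 / (s : ℝ))) s,
    ← Real.rpow_mul (by positivity), one_div, inv_mul_cancel₀ hs0.ne', Real.rpow_one] at h1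
  calc Real.log X ^ (k * s) * D ≤ ((D : ℝ) * H) ^ s * (H / D) * D := mul_le_mul_of_nonneg_right h1 hD0.le
    _ = ((D : ℝ) * H) ^ s * H := by
        field_simp

end Pool.Agent.Results.MP_e6fa8b_nt.DilatedWindows
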