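import Pool.Agent.Helper83.HLD.Near
import Pool.Agent.Helper13.MRF.Final

/-!
# The Matomäki-Radziwiłł theorem at prime tuples

The Liouville function has mean `o(1)`, also after a twist by `e(h α)`, in the windows of length `H ≥ c (log X) ^ k` at
all but `o(X / (log X) ^ k)` of the prime `k`-tuples `n + a_1, ..., n + a_k` with `n ≤ X`, for every fixed `c > 0`; the
same holds on average over `b` with `r` additional primes `n + b_1, ..., n + b_r`, `b` in a box whose sides have length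
at least `c log X`. For `k = 1`, `r = 0`: for almost all primes `p ≤ X` the sum of the Liouville function over
`(p, p + c log X]` is `o(log X)`.
-/

set_option autoImplicit false

namespace Pool.Agent.Results.MP_e6fa8b_nt.PrimeNeighbourhoods

open Finset

/-- `f` is the Liouville function, or `f n = b (Ω n) - m`, where `|b| ≤ 1` and `m` is the mean of `b (Ω n)`
over `n ≤ X`. -/
def Centred (X : ℕ) (f : ℕ → ℝ) : Prop :=
  (∀ n, f n = (-1) ^ ArithmeticFunction.cardFactors n) ∨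
    ∃ b : ℕ → ℝ, (∀ m, |b m| ≤ 1) ∧
      ∀ n, f n = b (ArithmeticFunction.cardFactors n) -
        (∑ m ∈ Icc 1 X, b (ArithmeticFunction.cardFactors m)) / X

/-- For distinct `a_1, ..., a_k`, every `r` and all `c, ε > 0` there are `H₀` and `X₀` such that for `X ≥ X₀`, `z_j ≤ X`,
`c log X ≤ B_j ≤ X`, `H ≥ H₀`, `c (log X) ^ k ≤ H ≤ X`, `y ≤ X`, every centred `f` and every real `α`: the sum over
`b_j ∈ (z_j, z_j + B_j]` and `n ≤ X` of
`Λ (n + a_1) ... Λ (n + a_k) Λ (n + b_1) ... Λ (n + b_r) |∑_{y < h ≤ y + H} f (n + h) e (h α)|` is at most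
`ε B_1 ... B_r H X`. -/
theorem result (k r : ℕ) (a : Fin k → ℕ) (ha : Function.Injective a) (c ε : ℝ) (hc : 0 < c) (hε : 0 < ε) :
    ∃ H₀ X₀ : ℕ, ∀ X : ℕ, X₀ ≤ X → ∀ z B : Fin r → ℕ, (∀ j, z j ≤ X) →
      (∀ j, c * Real.log X ≤ B j) → (∀ j, B j ≤ X) →
      ∀ H y : ℕ, H₀ ≤ H → c * Real.log X ^ k ≤ H → H ≤ X → y ≤ X →
      ∀ f : ℕ → ℝ, Centred X f → ∀ α : ℝ,
        ∑ b ∈ Fintype.piFinset (fun j => Ioc (z j) (z j + B j)), ∑ n ∈ Icc 1 X,
          (∏ i, ArithmeticFunction.vonMangoldt (n + a i)) * (∏ j, ArithmeticFunction.vonMangoldt (n + b j)) *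
            ‖∑ h ∈ Ioc y (y + H), (f (n + h) : ℂ) * Complex.exp (2 * Real.pi * Complex.I * (h * α))‖ ≤
          ε * (∏ j, (B j : ℝ)) * H * X := by
  obtain ⟨H₀, X₀, h⟩ := Helper83.HLD.near_final
    (MRC.expx_bridge MRP.mrchi0x_holds MRP.mrchi1x_holds MRP.lawx) MRP.lawx k r a ha c ε hc hε
  exact ⟨H₀, X₀, h⟩

end Pool.Agent.Results.MP_e6fa8b_nt.PrimeNeighbourhoods
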